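import Pool.Agent.E8helper39.WW.Stm

/-! Project WW, piece FIN. -/

set_option autoImplicit false

open Module Submodule

namespace WW39

theorem ver_apply (d : ℕ) (p : Fin 3 → ℝ)
    (F : MvPolynomial.homogeneousSubmodule (Fin 3) ℝ d) :
    ver d p F = MvPolynomial.eval p F.1 := rfl

theorem rep_simp (P : Finset (Projectivization ℝ (Fin 3 → ℝ))) :
    Simp (Projectivization.rep '' (P : Set (Projectivization ℝ (Fin 3 → ℝ)))) := by
  constructor
  · rintro _ ⟨p, -, rfl⟩
    exact p.rep_nonzero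
  · rintro _ ⟨p, -, rfl⟩ _ ⟨p', -, rfl⟩ c hc
    have h : p = p' := by
      rw [← p.mk_rep, ← p'.mk_rep, Projectivization.mk_eq_mk_iff']
      by_cases h0 : c = 0
      · rw [h0, zero_smul] at hc
        exact absurd hc p'.rep_nonzero
      · refine ⟨c⁻¹, ?_⟩
        rw [hc, smul_smul, inv_mul_cancel₀ h0, one_smul]
    rw [h]

theorem rep_inj (p p' : Projectivization ℝ (Fin 3 → ℝ)) (h : p.rep = p'.rep) : p = p' := by
  rw [← p.mk_rep, ← p'.mk_rep]
  simp only [h]

theorem ver_ne (d : ℕ) (p : Fin 3 → ℝ) (hp : p ≠ 0) : ver d p ≠ 0 := by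
  obtain ⟨i, hi⟩ := Function.ne_iff.1 hp
  intro h
  have hX : (MvPolynomial.X i ^ d : MvPolynomial (Fin 3) ℝ) ∈
      MvPolynomial.homogeneousSubmodule (Fin 3) ℝ d := by
    rw [MvPolynomial.mem_homogeneousSubmodule]
    have := (MvPolynomial.isHomogeneous_X ℝ i).pow d
    simpa using this
  have h1 := congrArg (fun v => v ⟨_, hX⟩) h
  simp only [LinearMap.zero_apply] at h1
  rw [ver_apply] at h1
  simp only [map_pow, MvPolynomial.eval_X] at h1
  exact pow_ne_zero d hi h1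

theorem t_FIN (h1 : S_T) (h2 : S_NSV) (h3 : S_INJ) (h4 : S_DIM) : S_FIN := by
  intro d hd P
  obtain ⟨n, rfl⟩ : ∃ n, d = n + 1 := ⟨d - 1, by omega⟩
  by_cases hex : ∃ f : MvPolynomial (Fin 3) ℝ, f.IsHomogeneous (n + 1) ∧ f ≠ 0 ∧
          ∀ p ∈ P, MvPolynomial.eval p.rep f = 0
  · exact Or.inl hex
  right
  have hfd : FiniteDimensional ℝ (MvPolynomial.homogeneousSubmodule (Fin 3) ℝ (n + 1)) :=
    (h4 (n + 1)).1
  set W := MvPolynomial.homogeneousSubmodule (Fin 3) ℝ (n + 1) with hW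
  set C : Set (Fin 3 → ℝ) := Projectivization.rep '' (P : Set (Projectivization ℝ (Fin 3 → ℝ)))
    with hC
  have hCfin : C.Finite := P.finite_toSet.image _
  have hCs : Simp C := rep_simp P
  set E : Set (Dual ℝ W) := ver (n + 1) '' C with hE
  have hEfin : E.Finite := hCfin.image _
  have hsurj : ∀ f : Dual ℝ (Dual ℝ W), ∃ F : W, ∀ x : Dual ℝ W, f x = x F := by
    intro f
    obtain ⟨F, hF⟩ := (Module.evalEquiv ℝ W).surjective f
    refine ⟨F, fun x => ?_⟩
    rw [← hF]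
    rfl
  have hspan : span ℝ E = ⊤ := by
    by_contra hne
    obtain ⟨f, hf0, hf⟩ := Submodule.exists_le_ker_of_lt_top (span ℝ E) (lt_top_iff_ne_top.2 hne)
    obtain ⟨F, hF⟩ := hsurj f
    refine hex ⟨F.1, (MvPolynomial.mem_homogeneousSubmodule _ _).1 F.2, ?_, ?_⟩
    · intro h0
      apply hf0
      have hF0 : F = 0 := Subtype.ext h0
      ext x
      rw [hF, hF0, map_zero]
      rfl
    · intro p hp
      have hm : ver (n + 1) p.rep ∈ span ℝ E :=
        subset_span ⟨p.rep, ⟨p, hp, rfl⟩, rfl⟩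
      have := LinearMap.mem_ker.1 (hf hm)
      rw [hF, ver_apply] at this
      exact this
  have hE0 : ∀ e ∈ E, e ≠ 0 := by
    rintro _ ⟨p, hp, rfl⟩
    exact ver_ne _ _ (hCs.1 p hp)
  have hEs : ∀ e ∈ E, ∀ e' ∈ E, ∀ c : ℝ, e' = c • e → e' = e := by
    rintro _ ⟨p, hp, rfl⟩ _ ⟨p', hp', rfl⟩ c hc
    obtain ⟨c', hc'⟩ := h3 n p p' c (hCs.1 p hp) (hCs.1 p' hp') hc
    rw [hCs.2 p hp p' hp' c' hc']
  have hvinj : ∀ p ∈ C, ∀ p' ∈ C, ver (n + 1) p = ver (n + 1) p' → p = p' := by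
    intro p hp p' hp' h
    obtain ⟨c', hc'⟩ := h3 n p' p 1 (hCs.1 p' hp') (hCs.1 p hp) (by rw [one_smul]; exact h)
    exact hCs.2 p' hp' p hp c' hc'
  have hNS : NS E := h2 n C hCfin hCs
  have hEne : E.Nonempty := by
    by_contra hne
    rw [Set.not_nonempty_iff_eq_empty] at hne
    rw [hne, span_empty] at hspan
    have h5 : finrank ℝ (Dual ℝ W) = 0 := by
      rw [← finrank_top ℝ (Dual ℝ W), ← hspan, finrank_bot]
    rw [Subspace.dual_finrank_eq, (h4 (n + 1)).2] at h5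
    have h6 : 2 ≤ (n + 1 + 1) * (n + 1 + 2) := by nlinarith
    omega
  obtain ⟨f, ⟨e₀, he₀, hfe₀⟩, hli, hker⟩ := h1 (Dual ℝ W) E hEfin hspan hE0 hEs hNS hEne
  obtain ⟨F, hF⟩ := hsurj f
  have hf0 : f ≠ 0 := by
    intro h
    rw [h] at hfe₀
    exact hfe₀ rfl
  have hsp : span ℝ (E ∩ {e | f e = 0}) = LinearMap.ker f := by
    apply le_antisymm
    · rw [span_le]
      rintro x ⟨-, hx⟩
      exact LinearMap.mem_ker.2 hx
    · intro x hx
      exact hker x (LinearMap.mem_ker.1 hx)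
  refine ⟨F.1, (MvPolynomial.mem_homogeneousSubmodule _ _).1 F.2, ?_, ?_, ?_⟩
  · intro h0
    apply hf0
    have hF0 : F = 0 := Subtype.ext h0
    ext x
    rw [hF, hF0, map_zero]
    rfl
  · have hBfin : (E ∩ {e | f e = 0}).Finite := hEfin.subset Set.inter_subset_left
    have hrk : finrank ℝ (span ℝ (E ∩ {e | f e = 0})) = (E ∩ {e | f e = 0}).ncard := by
      have : Fintype ↑(E ∩ {e | f e = 0}) := hBfin.fintype
      rw [finrank_span_set_eq_card hli, Set.ncard_eq_toFinset_card']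
    have hk1 := Module.Dual.finrank_ker_add_one_of_ne_zero hf0
    rw [← hsp, hrk, Subspace.dual_finrank_eq, (h4 (n + 1)).2] at hk1
    have hB : E ∩ {e | f e = 0} = (fun p : Projectivization ℝ (Fin 3 → ℝ) =>
        ver (n + 1) p.rep) '' ((P.filter (fun p => MvPolynomial.eval p.rep F.1 = 0) :
          Finset (Projectivization ℝ (Fin 3 → ℝ))) : Set (Projectivization ℝ (Fin 3 → ℝ))) := by
      ext e
      constructor
      · rintro ⟨⟨_, ⟨p, hp, rfl⟩, rfl⟩, he⟩
        refine ⟨p, ?_, rfl⟩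
        rw [Finset.mem_coe, Finset.mem_filter]
        refine ⟨hp, ?_⟩
        have h7 : f (ver (n + 1) p.rep) = 0 := he
        rw [hF, ver_apply] at h7
        exact h7
      · rintro ⟨p, hp, rfl⟩
        rw [Finset.mem_coe, Finset.mem_filter] at hp
        refine ⟨⟨p.rep, ⟨p, hp.1, rfl⟩, rfl⟩, ?_⟩
        show f (ver (n + 1) p.rep) = 0
        rw [hF, ver_apply]
        exact hp.2
    rw [hB, Set.ncard_image_of_injOn, Set.ncard_coe_finset] at hk1
    · omega
    · intro p hp p' hp' h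
      rw [Finset.mem_coe, Finset.mem_filter] at hp hp'
      exact rep_inj p p' (hvinj _ ⟨p, hp.1, rfl⟩ _ ⟨p', hp'.1, rfl⟩ h)
  · intro g hg hgP
    set G : W := ⟨g, (MvPolynomial.mem_homogeneousSubmodule _ _).2 hg⟩ with hG
    have hkG : ∀ x : Dual ℝ W, f x = 0 → x G = 0 := by
      intro x hx
      have hx2 := hker x hx
      have hle : span ℝ (E ∩ {e | f e = 0}) ≤ LinearMap.ker (Module.Dual.eval ℝ W G) := by
        rw [span_le]
        rintro _ ⟨⟨_, ⟨p, hp, rfl⟩, rfl⟩, he⟩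
        rw [SetLike.mem_coe, LinearMap.mem_ker]
        have h7 : f (ver (n + 1) p.rep) = 0 := he
        rw [hF, ver_apply] at h7
        exact hgP p hp h7
      exact LinearMap.mem_ker.1 (hle hx2)
    refine ⟨e₀ G / f e₀, ?_⟩
    have hGF : G = (e₀ G / f e₀) • F := by
      apply (Module.evalEquiv ℝ W).injective
      ext x
      show x G = x ((e₀ G / f e₀) • F)
      rw [map_smul, ← hF x, smul_eq_mul]
      have h8 := hkG (x - (f x / f e₀) • e₀) (by
        rw [map_sub, map_smul, smul_eq_mul, div_mul_cancel₀ _ hfe₀, sub_self])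
      rw [LinearMap.sub_apply, LinearMap.smul_apply, smul_eq_mul, sub_eq_zero] at h8
      rw [h8]
      ring
    have := congrArg Subtype.val hGF
    simpa using this

end WW39
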